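import Pool.Agent.K1H99.CL.Max

set_option autoImplicit false
open MeasureTheory ProbabilityTheory Filter Topology
open scoped ENNReal NNReal

namespace Pool.Agent.K1H99.CL

open Pool.H878.ERW

theorem visits_pos (p : ℕ → ℤ) (j : ℕ) : 1 ≤ visits p j := by
  unfold visits
  rw [Nat.succ_le_iff, Finset.card_pos]
  exact ⟨j, by simp⟩

theorem visits_le (p : ℕ → ℤ) (j : ℕ) : visits p j ≤ j + 1 := by
  unfold visits
  exact (Finset.card_filter_le _ _).trans (by simp)

/-- total drift stored in the first `n` cookies of the sites of `[-a, r)` -/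
noncomputable def drift (w : ℤ → ℕ → ℝ) (a r n : ℕ) : ℝ :=
  ∑ z ∈ Finset.Ico (-(a:ℤ)) r, ∑ i ∈ Finset.Icc 1 n, (2 * w z i - 1)

theorem det_bound (w : ℤ → ℕ → ℝ) (p : ℕ → ℤ) (n : ℕ) (a r : ℕ)
    (hlow : ∀ z i, 1 ≤ i → 1/2 ≤ w z i)
    (hM : ∀ m ≤ n, |mart w p m| < a) (hS : drift w a r n ≤ (r:ℝ) - a) :
    ∀ m ≤ n, -(a:ℤ) < p m ∧ p m < r := by
  have hd : ∀ j, 0 ≤ 2 * w (p j) (visits p j) - 1 := by
    intro j
    have := hlow (p j) (visits p j) (visits_pos p j)
    linarith
  have hlowb : ∀ m ≤ n, -(a:ℤ) < p m := by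
    intro m hm
    have h1 := hM m hm
    rw [abs_lt] at h1
    have h2 : mart w p m ≤ (p m : ℝ) := by
      unfold mart
      have := Finset.sum_nonneg (fun j (_ : j ∈ Finset.range m) => hd j)
      linarith
    have h3 : (-(a:ℝ)) < (p m : ℝ) := by linarith
    exact_mod_cast h3
  refine fun m hm => ⟨hlowb m hm, ?_⟩
  induction m using Nat.strong_induction_on with
  | _ m ih =>
    by_contra hcon
    push Not at hcon
    have hin : ∀ j < m, p j ∈ Finset.Ico (-(a:ℤ)) r := by
      intro j hj
      rw [Finset.mem_Ico]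
      exact ⟨(hlowb j (by omega)).le, ih j hj (by omega)⟩
    have hsum : ∑ j ∈ Finset.range m, (2 * w (p j) (visits p j) - 1) ≤ drift w a r n := by
      unfold drift
      rw [← Finset.sum_product']
      have h1 : ∑ j ∈ Finset.range m, (2 * w (p j) (visits p j) - 1) =
          ∑ x ∈ (Finset.range m).image (fun j => (p j, visits p j)), (2 * w x.1 x.2 - 1) := by
        rw [Finset.sum_image]
        intro i _ j _ hij
        exact e1inj p hij
      rw [h1]
      refine Finset.sum_le_sum_of_subset_of_nonneg ?_ ?_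
      · intro x hx
        rw [Finset.mem_image] at hx
        obtain ⟨j, hj, rfl⟩ := hx
        have hj' := Finset.mem_range.1 hj
        rw [Finset.mem_product, Finset.mem_Icc]
        exact ⟨hin j hj', visits_pos p j, (visits_le p j).trans (by omega)⟩
      · intro x hx _
        rw [Finset.mem_product, Finset.mem_Icc] at hx
        have := hlow x.1 x.2 hx.2.1
        linarith
    have h1 := hM m hm
    rw [abs_lt] at h1
    have h2 : (p m : ℝ) = mart w p m + ∑ j ∈ Finset.range m, (2 * w (p j) (visits p j) - 1) := by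
      unfold mart
      ring
    have h3 : (r : ℝ) ≤ (p m : ℝ) := by exact_mod_cast hcon
    linarith

end Pool.Agent.K1H99.CL
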