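import Pool.Agent.K1H99.CL.Prob

set_option autoImplicit false
open MeasureTheory ProbabilityTheory Filter Topology
open scoped ENNReal NNReal

namespace Pool.Agent.K1H99.CL

open Pool.H878.ERW

/-- `N_k` -/
def NN (k : ℕ) : ℕ := Nf k (hs k)

theorem NN_pos (k : ℕ) : 0 < NN k := Nf_pos _ _

variable {Ω : Type} [MeasurableSpace Ω] {μ : Measure Ω} {env : Ω → ℤ → ℕ → ℝ} {X : ℕ → Ω → ℤ}

theorem meas_drift (a r n : ℕ) : Measurable (fun w : ℤ → ℕ → ℝ => drift w a r n) := by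
  unfold drift
  refine Finset.measurable_fun_sum _ fun z _ => Finset.measurable_fun_sum _ fun i _ => ?_
  exact ((meas_eval _ _).const_mul 2).sub_const 1

theorem X0_null [IsProbabilityMeasure μ] (h : IsERW μ env X) : μ {ω | X 0 ω ≠ 0} = 0 := by
  have hsub : {ω | X 0 ω ≠ 0} ⊆ ⋃ c : ℤ, {ω | c ≠ 0 ∧ (env ω ∈ Set.univ ∧
      ∀ j, j ≤ 0 → X j ω = (fun _ => c) j)} := by
    intro ω hω
    rw [Set.mem_iUnion]
    refine ⟨X 0 ω, hω, Set.mem_univ _, fun j hj => ?_⟩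
    have : j = 0 := by omega
    subst this
    rfl
  refine measure_mono_null hsub (measure_iUnion_null fun c => ?_)
  by_cases hc : c = 0
  · have : {ω | c ≠ 0 ∧ (env ω ∈ Set.univ ∧ ∀ j, j ≤ 0 → X j ω = (fun _ => c) j)} = ∅ := by
      ext ω
      simp only [Set.mem_ofPred_eq, Set.mem_empty_iff_false, iff_false]
      exact fun h => h.1 hc
    rw [this]
    simp
  · have h1 := h.law 0 (fun _ => c) Set.univ MeasurableSet.univ
    rw [if_neg hc] at h1
    refine measure_mono_null ?_ h1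
    exact fun ω hω => hω.2

theorem main_est [IsProbabilityMeasure μ] (henv : Measurable env) (hX : ∀ n, Measurable (X n))
    (h01 : ∀ ω x i, env ω x i ∈ Set.Icc (0:ℝ) 1) (h : IsERW μ env X)
    (hlaw : μ.map env = PJ.map ev) (k : ℕ) (hk : 1 ≤ k) :
    μ {ω | ∃ m ≤ NN k ^ 2, ((2 ^ (k + 2) * (k * NN k) : ℕ) : ℤ) ≤ |X m ω|} ≤
      ENNReal.ofReal (3 / k) := by
  set N := NN k with hN
  set a := k * N with ha
  set r := 2 ^ (k + 2) * a with hr
  set n := N ^ 2 with hn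
  have hNpos : 0 < N := NN_pos k
  have hapos : 0 < a := Nat.mul_pos (by omega) hNpos
  have hkR : (0:ℝ) < k := by exact_mod_cast (by omega : 0 < k)
  have hNR : (0:ℝ) < N := by exact_mod_cast hNpos
  have haR : (0:ℝ) < a := by exact_mod_cast hapos
  have b2 : μ {ω | ¬ ∀ z i, 1 / 2 ≤ env ω z i} = 0 := by
    have hm : MeasurableSet {w : ℤ → ℕ → ℝ | ¬ ∀ z i, 1 / 2 ≤ w z i} := by
      have : {w : ℤ → ℕ → ℝ | ¬ ∀ z i, 1 / 2 ≤ w z i} =
          (⋂ z : ℤ, ⋂ i : ℕ, {w : ℤ → ℕ → ℝ | 1 / 2 ≤ w z i})ᶜ := by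
        ext w
        simp
      rw [this]
      exact (MeasurableSet.iInter fun z => MeasurableSet.iInter fun i =>
        measurableSet_le measurable_const (meas_eval z i)).compl
    have h1 : {ω | ¬ ∀ z i, 1 / 2 ≤ env ω z i} =
        env ⁻¹' {w : ℤ → ℕ → ℝ | ¬ ∀ z i, 1 / 2 ≤ w z i} := rfl
    rw [h1, ← Measure.map_apply henv hm, hlaw, Measure.map_apply meas_ev hm]
    have h2 : ev ⁻¹' {w : ℤ → ℕ → ℝ | ¬ ∀ z i, 1 / 2 ≤ w z i} = ∅ := by
      ext J
      simp only [Set.mem_preimage, Set.mem_ofPred_eq, Set.mem_empty_iff_false, iff_false, not_not]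
      exact fun z i => ev_low J z i
    rw [h2]
    simp
  have b3 := max_ineq henv hX h01 h (a:ℝ) haR n
  have b4 : μ {ω | (r : ℝ) - a < drift (env ω) a r n} ≤
      ((2 ^ (k + 2) + 1) * a : ℕ) * (hs (k + 1) : ℝ≥0∞)⁻¹ +
        ENNReal.ofReal (2 ^ k * hs k / a) := by
    have hm : MeasurableSet {w : ℤ → ℕ → ℝ | (r : ℝ) - a < drift w a r n} :=
      measurableSet_lt measurable_const (meas_drift a r n)
    have h1 : {ω | (r : ℝ) - a < drift (env ω) a r n} =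
        env ⁻¹' {w : ℤ → ℕ → ℝ | (r : ℝ) - a < drift w a r n} := rfl
    rw [h1, ← Measure.map_apply henv hm, hlaw, Measure.map_apply meas_ev hm]
    exact bad_env k a n hk hapos
  have hsub : {ω | ∃ m ≤ n, (r : ℤ) ≤ |X m ω|} ⊆
      {ω | X 0 ω ≠ 0} ∪ ({ω | ¬ ∀ z i, 1 / 2 ≤ env ω z i} ∪
        ({ω | X 0 ω = 0 ∧ ∃ m, m ≤ n ∧ (a:ℝ) ≤ |mart (env ω) (fun j => X j ω) m|} ∪
          {ω | (r : ℝ) - a < drift (env ω) a r n})) := by
    rintro ω ⟨m, hm, hmr⟩
    by_contra hcon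
    simp only [Set.mem_union, Set.mem_ofPred_eq, not_or, not_not, not_and, not_exists,
      not_lt, ne_eq, not_le] at hcon
    obtain ⟨h0, h2, h3, h4⟩ := hcon
    have h5 := det_bound (env ω) (fun j => X j ω) n a r (fun z i _ => h2 z i)
      (fun m hm => h3 h0 m hm) h4 m hm
    have h6 : (a:ℤ) ≤ r := by
      rw [hr]
      have : a ≤ 2 ^ (k + 2) * a := Nat.le_mul_of_pos_left _ (by positivity)
      exact_mod_cast this
    have h7 : |X m ω| < r := by
      rw [abs_lt]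
      exact ⟨by linarith [h5.1], h5.2⟩
    omega
  refine (measure_mono hsub).trans ?_
  refine (measure_union_le _ _).trans ?_
  rw [X0_null h, zero_add]
  refine (measure_union_le _ _).trans ?_
  rw [b2, zero_add]
  refine (measure_union_le _ _).trans ?_
  refine (add_le_add b3 b4).trans ?_
  have c1 : (((2 ^ (k + 2) + 1) * a : ℕ) : ℝ≥0∞) * (hs (k + 1) : ℝ≥0∞)⁻¹ ≤
      ENNReal.ofReal (1 / k) := by
    have h1 : k * ((2 ^ (k + 2) + 1) * a) ≤ hs (k + 1) := by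
      rw [hs_succ]
      show k * ((2 ^ (k + 2) + 1) * (k * Nf k (hs k))) ≤ _
      omega
    rw [← div_eq_mul_inv]
    rw [ENNReal.div_le_iff (hs_ne k) (by simp)]
    rw [show (hs (k + 1) : ℝ≥0∞) = ENNReal.ofReal (hs (k + 1)) by simp,
      ← ENNReal.ofReal_mul (by positivity)]
    rw [show ((((2 ^ (k + 2) + 1) * a : ℕ)) : ℝ≥0∞) =
      ENNReal.ofReal (((2 ^ (k + 2) + 1) * a : ℕ) : ℝ) from (ENNReal.ofReal_natCast _).symm]
    apply ENNReal.ofReal_le_ofReal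
    have h2 : (k:ℝ) * (((2 ^ (k + 2) + 1) * a : ℕ) : ℝ) ≤ hs (k + 1) := by exact_mod_cast h1
    rw [one_div, inv_mul_eq_div, le_div_iff₀ hkR]
    linarith
  have c2 : ENNReal.ofReal (2 ^ k * hs k / a) ≤ ENNReal.ofReal (1 / k) := by
    apply ENNReal.ofReal_le_ofReal
    rw [div_le_div_iff₀ haR hkR]
    have h1 : 2 ^ k * hs k ≤ N := by
      show 2 ^ k * hs k ≤ (2 ^ k * hs k + 1) * 3 ^ (2 ^ (k + 1) * k ^ 2)
      calc 2 ^ k * hs k ≤ (2 ^ k * hs k + 1) * 1 := by omega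
        _ ≤ _ := Nat.mul_le_mul_left _ (Nat.one_le_pow _ _ (by norm_num))
    have h2 : (2:ℝ) ^ k * hs k ≤ N := by exact_mod_cast h1
    have h3 : (a:ℝ) = k * N := by rw [ha]; push_cast; ring
    rw [h3, one_mul]
    nlinarith
  have c3 : ENNReal.ofReal ((n:ℝ) / (a:ℝ) ^ 2) ≤ ENNReal.ofReal (1 / k) := by
    apply ENNReal.ofReal_le_ofReal
    have h3 : (a:ℝ) = k * N := by rw [ha]; push_cast; ring
    have h4 : (n:ℝ) = N ^ 2 := by rw [hn]; push_cast; ring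
    rw [h3, h4, mul_pow, div_le_div_iff₀ (by positivity) hkR]
    have h5 : (1:ℝ) ≤ k := by exact_mod_cast hk
    have h6 : (0:ℝ) < (N:ℝ) ^ 2 := by positivity
    have h7 : (k:ℝ) ≤ (k:ℝ) ^ 2 := by nlinarith
    nlinarith
  calc ENNReal.ofReal ((n:ℝ) / (a:ℝ) ^ 2) + ((((2 ^ (k + 2) + 1) * a : ℕ) : ℝ≥0∞) *
        (hs (k + 1) : ℝ≥0∞)⁻¹ + ENNReal.ofReal (2 ^ k * hs k / a))
      ≤ ENNReal.ofReal (1 / k) + (ENNReal.ofReal (1 / k) + ENNReal.ofReal (1 / k)) :=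
        add_le_add c3 (add_le_add c1 c2)
    _ = ENNReal.ofReal (3 / k) := by
        rw [← ENNReal.ofReal_add (by positivity) (by positivity),
          ← ENNReal.ofReal_add (by positivity) (by positivity)]
        congr 1
        ring

end Pool.Agent.K1H99.CL
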