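import Mathlib

set_option autoImplicit false
open MeasureTheory ProbabilityTheory Filter Topology
open scoped ENNReal NNReal

namespace Pool.Agent.K1H99.CL

/-- tent weight -/
noncomputable def psi (s : ℝ≥0) : ℝ := max 0 (1 - (s : ℝ))

theorem psi_nonneg (s : ℝ≥0) : 0 ≤ psi s := le_max_left _ _

theorem psi_le_one (s : ℝ≥0) : psi s ≤ 1 := by
  unfold psi
  have : (0:ℝ) ≤ s := s.2
  exact max_le (by norm_num) (by linarith)

theorem psi_cont : Continuous psi := by
  unfold psi
  fun_prop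

theorem psi_anti : Antitone psi := by
  intro s t h
  unfold psi
  have : (s:ℝ) ≤ t := h
  exact max_le_max le_rfl (by linarith)

theorem psi_zero {s : ℝ≥0} (h : 1 ≤ (s:ℝ)) : psi s = 0 := by
  unfold psi
  exact max_eq_left (by linarith)

theorem psi_lip (s t : ℝ≥0) : |psi s - psi t| ≤ |(s:ℝ) - t| := by
  unfold psi
  have := abs_max_sub_max_le_max (0:ℝ) (1 - s) 0 (1 - t)
  refine this.trans ?_
  rw [sub_self, abs_zero]
  refine max_le (abs_nonneg _) ?_
  rw [show (1 - (s:ℝ)) - (1 - t) = -(s - t) by ring, abs_neg]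

/-- the test functional -/
noncomputable def FF (x : ℝ≥0 → ℝ) : ℝ := ⨆ s, psi s * min 1 |x s|

theorem term_nonneg (x : ℝ≥0 → ℝ) (s : ℝ≥0) : 0 ≤ psi s * min 1 |x s| :=
  mul_nonneg (psi_nonneg s) (le_min zero_le_one (abs_nonneg _))

theorem term_le (x : ℝ≥0 → ℝ) (s : ℝ≥0) : psi s * min 1 |x s| ≤ 1 :=
  mul_le_one₀ (psi_le_one s) (le_min zero_le_one (abs_nonneg _)) (min_le_left _ _)

theorem FF_bdd (x : ℝ≥0 → ℝ) : BddAbove (Set.range fun s => psi s * min 1 |x s|) :=
  ⟨1, by rintro _ ⟨s, rfl⟩; exact term_le x s⟩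

theorem le_FF (x : ℝ≥0 → ℝ) (s : ℝ≥0) : psi s * min 1 |x s| ≤ FF x := le_ciSup (FF_bdd x) s

theorem FF_nonneg (x : ℝ≥0 → ℝ) : 0 ≤ FF x := (term_nonneg x 0).trans (le_FF x 0)

theorem FF_le_one (x : ℝ≥0 → ℝ) : FF x ≤ 1 := ciSup_le fun s => term_le x s

theorem FF_le (x : ℝ≥0 → ℝ) (c : ℝ) (hc : 0 ≤ c) (h : ∀ s : ℝ≥0, (s:ℝ) < 1 → |x s| ≤ c) :
    FF x ≤ c := by
  refine ciSup_le fun s => ?_
  by_cases hs : (s:ℝ) < 1
  · calc psi s * min 1 |x s| ≤ 1 * |x s| := by
          gcongr
          · exact psi_le_one s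
          · exact min_le_right _ _
      _ ≤ c := by rw [one_mul]; exact h s hs
  · rw [psi_zero (by linarith), zero_mul]
    exact hc

theorem min_lip (a b : ℝ) : abs (min 1 |a| - min 1 |b|) ≤ |a - b| := by
  refine (abs_min_sub_min_le_max 1 |a| 1 |b|).trans ?_
  rw [sub_self, abs_zero]
  exact max_le (abs_nonneg _) (abs_abs_sub_abs_le _ _)

/-- the functional is continuous -/
theorem FF_tendsto (x : ℕ → ℝ≥0 → ℝ) (y : ℝ≥0 → ℝ) (lam : ℕ → ℝ≥0 ≃o ℝ≥0)
    (h : ∀ T : ℝ≥0, TendstoUniformlyOn (fun n s => lam n s) (fun s => s) atTop (Set.Iic T) ∧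
      TendstoUniformlyOn (fun n s => x n (lam n s)) y atTop (Set.Iic T)) :
    Tendsto (fun n => FF (x n)) atTop (𝓝 (FF y)) := by
  rw [Metric.tendsto_atTop]
  intro ε hε
  obtain ⟨h1, h2⟩ := h 2
  rw [Metric.tendstoUniformlyOn_iff] at h1 h2
  obtain ⟨N, hN⟩ := eventually_atTop.1 ((h1 (min (ε / 3) 1) (by positivity)).and
    (h2 (ε / 3) (by positivity)))
  refine ⟨N, fun n hn => ?_⟩
  obtain ⟨g1, g2⟩ := hN n hn
  have hre : FF (x n) = ⨆ s, psi (lam n s) * min 1 |x n (lam n s)| := by
    unfold FF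
    exact ((lam n).toEquiv.iSup_comp (g := fun s => psi s * min 1 |x n s|)).symm
  have key : ∀ s, abs (psi (lam n s) * min 1 |x n (lam n s)| - psi s * min 1 |y s|) ≤ 2 * ε / 3 := by
    intro s
    by_cases hs : s ≤ 2
    · have k1 := g1 s hs
      have k2 := g2 s hs
      rw [NNReal.dist_eq] at k1
      rw [Real.dist_eq] at k2
      have k1' : |((lam n s : ℝ≥0) : ℝ) - s| < ε / 3 := by
        rw [abs_sub_comm]; exact lt_of_lt_of_le k1 (min_le_left _ _)
      have k2' : |x n (lam n s) - y s| < ε / 3 := by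
        rw [abs_sub_comm]; exact k2
      have e1 := (psi_lip (lam n s) s).trans k1'.le
      have e2 := (min_lip (x n (lam n s)) (y s)).trans k2'.le
      have e3 : psi (lam n s) * min 1 |x n (lam n s)| - psi s * min 1 |y s| =
          (psi (lam n s) - psi s) * min 1 |x n (lam n s)| +
          psi s * (min 1 |x n (lam n s)| - min 1 |y s|) := by ring
      rw [e3]
      refine (abs_add_le _ _).trans ?_
      rw [abs_mul, abs_mul]
      have e4 : abs (min 1 |x n (lam n s)|) ≤ 1 := by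
        rw [abs_of_nonneg (le_min zero_le_one (abs_nonneg _))]
        exact min_le_left _ _
      have e5 : |psi s| ≤ 1 := by
        rw [abs_of_nonneg (psi_nonneg s)]
        exact psi_le_one s
      have e6 : |psi (lam n s) - psi s| * abs (min 1 |x n (lam n s)|) ≤ ε / 3 * 1 := by gcongr
      have e7 : |psi s| * abs (min 1 |x n (lam n s)| - min 1 |y s|) ≤ 1 * (ε / 3) := by gcongr
      linarith
    · push Not at hs
      have hs' : (2:ℝ) < s := by exact_mod_cast hs
      have k1 := g1 2 (by simp)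
      rw [NNReal.dist_eq] at k1
      have k3 : |((2:ℝ≥0):ℝ) - (lam n 2 : ℝ≥0)| < 1 := lt_of_lt_of_le k1 (min_le_right _ _)
      rw [abs_lt] at k3
      have k4 : (lam n 2 : ℝ≥0) ≤ lam n s := (lam n).monotone hs.le
      have k5 : ((lam n 2 : ℝ≥0) : ℝ) ≤ (lam n s : ℝ≥0) := by exact_mod_cast k4
      have k6 : ((2:ℝ≥0):ℝ) = 2 := by norm_num
      rw [k6] at k3
      rw [psi_zero (by linarith [k3.2] : 1 ≤ ((lam n s : ℝ≥0) : ℝ)), psi_zero (by linarith)]
      simp only [zero_mul, sub_self, abs_zero]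
      positivity
  rw [Real.dist_eq]
  have hb : BddAbove (Set.range fun s => psi (lam n s) * min 1 |x n (lam n s)|) :=
    ⟨1, by rintro _ ⟨s, rfl⟩; exact term_le (x n) (lam n s)⟩
  have u1 : FF (x n) ≤ FF y + 2 * ε / 3 := by
    rw [hre]
    refine ciSup_le fun s => ?_
    have := key s
    rw [abs_le] at this
    have := le_FF y s
    linarith
  have u2 : FF y ≤ FF (x n) + 2 * ε / 3 := by
    rw [hre]
    refine ciSup_le fun s => ?_
    have h3 := key s
    rw [abs_le] at h3
    have := le_ciSup hb s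
    linarith
  rw [abs_lt]
  constructor <;> linarith

/-- value at a running maximum -/
theorem FF_runmax (y : ℝ≥0 → ℝ) (hy : Continuous y) (h0 : y 0 = 0) :
    FF (fun t => ⨆ s : Set.Iic t, y s) =
      ⨆ q : (TopologicalSpace.denseSeq ℝ≥0 |> Set.range), psi q * min 1 (max 0 (y q)) := by
  have hbdd : ∀ t : ℝ≥0, BddAbove (Set.range fun s : Set.Iic t => y s) := by
    intro t
    have hc : IsCompact (Set.Iic t) := by
      rw [← Set.Icc_bot]
      exact isCompact_Icc
    have := (hc.image hy).bddAbove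
    rwa [Set.image_eq_range] at this
  have hS0 : ∀ t : ℝ≥0, 0 ≤ ⨆ s : Set.Iic t, y s := by
    intro t
    have := le_ciSup (hbdd t) ⟨0, Set.mem_Iic.2 zero_le⟩
    simpa [h0] using this
  have hbf : BddAbove (Set.range fun u => psi u * min 1 (max 0 (y u))) :=
    ⟨1, by
      rintro _ ⟨s, rfl⟩
      exact mul_le_one₀ (psi_le_one s) (le_min zero_le_one (le_max_left _ _)) (min_le_left _ _)⟩
  have e1 : FF (fun t => ⨆ s : Set.Iic t, y s) = ⨆ u, psi u * min 1 (max 0 (y u)) := by
    apply le_antisymm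
    · refine ciSup_le fun s => ?_
      have hc : IsCompact (Set.Iic s) := by
        rw [← Set.Icc_bot]
        exact isCompact_Icc
      obtain ⟨u, hu, hmax⟩ := hc.exists_isMaxOn ⟨s, Set.self_mem_Iic⟩ hy.continuousOn
      have hSu : ⨆ v : Set.Iic s, y v = y u := by
        apply le_antisymm
        · have : Nonempty (Set.Iic s) := ⟨⟨s, Set.self_mem_Iic⟩⟩
          exact ciSup_le fun v => hmax v.2
        · exact le_ciSup (hbdd s) ⟨u, hu⟩
      have h1 : 0 ≤ y u := hSu ▸ hS0 s
      rw [abs_of_nonneg (hS0 s), hSu]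
      refine le_trans ?_ (le_ciSup hbf u)
      rw [max_eq_right h1]
      have := psi_anti (show u ≤ s from hu)
      gcongr
    · refine ciSup_le fun u => ?_
      refine le_trans ?_ (le_FF _ u)
      have h1 : y u ≤ ⨆ s : Set.Iic u, y s := le_ciSup (hbdd u) ⟨u, Set.self_mem_Iic⟩
      have h2 := hS0 u
      have := psi_nonneg u
      rw [abs_of_nonneg h2]
      gcongr
      exact max_le h2 h1
  rw [e1]
  have hcont : Continuous fun u => psi u * min 1 (max 0 (y u)) := by
    have := psi_cont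
    fun_prop
  have hd : Dense (Set.range (TopologicalSpace.denseSeq ℝ≥0)) :=
    TopologicalSpace.denseRange_denseSeq ℝ≥0
  exact (hd.ciSup hcont hbf).symm

/-- the expected value of the functional at the running maximum of a Brownian motion -/
theorem FF_pos {Ω' : Type*} [MeasurableSpace Ω'] (P' : Measure Ω') [IsProbabilityMeasure P']
    (B : ℝ≥0 → Ω' → ℝ) (hB : IsBrownianReal B P') :
    0 < ∫ ω, FF (fun t => ⨆ s : Set.Iic t, B s ω) ∂P' := by
  have h0 := hB.toIsPreBrownianReal.eval_zero_ae_eq_zero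
  have hc := hB.cont
  have hae : ∀ t, AEMeasurable (B t) P' := hB.toIsPreBrownianReal.aemeasurable
  set T : Ω' → ℝ := fun ω => FF (fun t => ⨆ s : Set.Iic t, B s ω) with hT
  have hTae : AEMeasurable T P' := by
    have h1 : AEMeasurable (fun ω => ⨆ q : (TopologicalSpace.denseSeq ℝ≥0 |> Set.range),
        psi q * min 1 (max 0 (B q ω))) P' := by
      have : Countable (TopologicalSpace.denseSeq ℝ≥0 |> Set.range) :=
        (Set.countable_range _).to_subtype
      refine AEMeasurable.iSup fun q => ?_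
      exact ((aemeasurable_const.min (aemeasurable_const.max (hae q))).const_mul _)
    refine h1.congr ?_
    filter_upwards [h0, hc] with ω h2 h3
    exact (FF_runmax (fun t => B t ω) h3 h2).symm
  have hTint : Integrable T P' := by
    refine Integrable.of_bound hTae.aestronglyMeasurable 1 (ae_of_all _ fun ω => ?_)
    rw [Real.norm_eq_abs, abs_of_nonneg (FF_nonneg _)]
    exact FF_le_one _
  set g : ℝ → ℝ := fun x => 1 / 2 * min 1 (max 0 x) with hg
  have hgc : Continuous g := by rw [hg]; fun_prop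
  have hg0 : ∀ x, 0 ≤ g x := fun x => by
    have : (0:ℝ) ≤ min 1 (max 0 x) := le_min zero_le_one (le_max_left _ _)
    show 0 ≤ 1 / 2 * min 1 (max 0 x)
    positivity
  have hg1 : ∀ x, g x ≤ 1 := fun x => by
    have : min 1 (max 0 x) ≤ 1 := min_le_left _ _
    show 1 / 2 * min 1 (max 0 x) ≤ 1
    linarith
  have hle : ∀ᵐ ω ∂P', g (B (1 / 2) ω) ≤ T ω := by
    filter_upwards [h0, hc] with ω h2 h3
    have h4 : BddAbove (Set.range fun s : Set.Iic (1 / 2 : ℝ≥0) => B s ω) := by
      have hcc : IsCompact (Set.Iic (1 / 2 : ℝ≥0)) := by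
        rw [← Set.Icc_bot]
        exact isCompact_Icc
      have := (hcc.image h3).bddAbove
      rwa [Set.image_eq_range] at this
    have h5 : B (1 / 2) ω ≤ ⨆ s : Set.Iic (1 / 2 : ℝ≥0), B s ω :=
      le_ciSup h4 ⟨1 / 2, Set.self_mem_Iic⟩
    have h6 : (0:ℝ) ≤ ⨆ s : Set.Iic (1 / 2 : ℝ≥0), B s ω := by
      have := le_ciSup h4 ⟨0, Set.mem_Iic.2 zero_le⟩
      simpa [h2] using this
    refine le_trans ?_ (le_FF _ (1 / 2))
    have h7 : psi (1 / 2) = 1 / 2 := by
      unfold psi
      norm_num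
    rw [h7, abs_of_nonneg h6]
    show 1 / 2 * min 1 (max 0 (B (1 / 2) ω)) ≤ _
    gcongr
    exact max_le h6 h5
  have hgint : Integrable (fun ω => g (B (1 / 2) ω)) P' := by
    refine Integrable.of_bound (hgc.measurable.comp_aemeasurable (hae _)).aestronglyMeasurable 1
      (ae_of_all _ fun ω => ?_)
    rw [Real.norm_eq_abs, abs_of_nonneg (hg0 _)]
    exact hg1 _
  refine lt_of_lt_of_le ?_ (integral_mono_ae hgint hTint hle)
  have hlaw := hB.toIsPreBrownianReal.hasLaw_eval (1 / 2)
  have h8 : ∫ ω, g (B (1 / 2) ω) ∂P' = ∫ x, g x ∂(gaussianReal 0 (1 / 2)) := by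
    rw [← hlaw.map_eq, integral_map (hae _) hgc.aestronglyMeasurable]
  rw [h8]
  have hgi : Integrable g (gaussianReal 0 (1 / 2)) := by
    refine Integrable.of_bound hgc.aestronglyMeasurable 1 (ae_of_all _ fun x => ?_)
    rw [Real.norm_eq_abs, abs_of_nonneg (hg0 _)]
    exact hg1 _
  rw [integral_pos_iff_support_of_nonneg hg0 hgi]
  have hsupp : Function.support g = Set.Ioi 0 := by
    ext x
    rw [Function.mem_support, Set.mem_Ioi]
    constructor
    · intro h
      by_contra hx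
      push Not at hx
      apply h
      show 1 / 2 * min 1 (max 0 x) = 0
      rw [max_eq_left hx]
      simp
    · intro hx
      have : 0 < 1 / 2 * min 1 (max 0 x) := by
        rw [max_eq_right hx.le]
        have : 0 < min 1 x := lt_min one_pos hx
        positivity
      exact this.ne'
  rw [hsupp, pos_iff_ne_zero]
  intro hz
  have h9 := gaussianReal_absolutelyContinuous' 0 (v := (1 / 2 : ℝ≥0)) (by norm_num) hz
  simp at h9

end Pool.Agent.K1H99.CL
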