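import Mathlib
import Pool.Agent.R987.Bern

set_option autoImplicit false
open MeasureTheory ProbabilityTheory Filter Topology
open scoped ENNReal NNReal

namespace Pool.Agent.K1H99.CL

/-- time scale -/
def Nf (k h : ℕ) : ℕ := (2 ^ k * h + 1) * 3 ^ (2 ^ (k + 1) * k ^ 2)

/-- heights of the piles -/
def hs : ℕ → ℕ
  | 0 => 0
  | (k + 1) => hs k + 2 + k * ((2 ^ (k + 2) + 1) * (k * Nf k (hs k)))

theorem hs_succ (k : ℕ) : hs (k + 1) = hs k + 2 + k * ((2 ^ (k + 2) + 1) * (k * Nf k (hs k))) := rfl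

theorem hs_mono : Monotone hs := by
  apply monotone_nat_of_le_succ
  intro k
  rw [hs_succ]
  omega

theorem two_le_hs (k : ℕ) : 2 ≤ hs (k + 1) := by
  rw [hs_succ]
  omega

theorem Nf_pos (k h : ℕ) : 0 < Nf k h := by
  unfold Nf
  positivity

/-- probability of the index `j + 1` -/
noncomputable def q' (j : ℕ) : ℝ≥0∞ := (2⁻¹ : ℝ≥0∞) ^ j / (hs (j + 1) : ℝ≥0∞)

theorem hs_ne (j : ℕ) : (hs (j + 1) : ℝ≥0∞) ≠ 0 := by
  have := two_le_hs j
  exact_mod_cast (by omega : hs (j + 1) ≠ 0)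

theorem tsum_geo : ∑' j : ℕ, (2⁻¹ : ℝ≥0∞) ^ j = 2 := by
  rw [ENNReal.tsum_geometric]
  have : (1 : ℝ≥0∞) - 2⁻¹ = 2⁻¹ := ENNReal.one_sub_inv_two
  rw [this, inv_inv]

theorem tsum_q' : ∑' j, q' j ≤ 1 := by
  calc ∑' j, q' j ≤ ∑' j, (2⁻¹ : ℝ≥0∞) ^ j * 2⁻¹ := by
        refine ENNReal.tsum_le_tsum fun j => ?_
        unfold q'
        rw [ENNReal.div_eq_inv_mul, mul_comm]
        gcongr
        exact_mod_cast two_le_hs j
    _ = 2 * 2⁻¹ := by rw [ENNReal.tsum_mul_right, tsum_geo]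
    _ = 1 := ENNReal.mul_inv_cancel (by norm_num) (by norm_num)

/-- law of the index -/
noncomputable def qq : ℕ → ℝ≥0∞
  | 0 => 1 - ∑' j, q' j
  | (j + 1) => q' j

theorem hasSum_qq : HasSum qq 1 := by
  have h : ∑' j, qq j = 1 := by
    rw [tsum_eq_zero_add' ENNReal.summable]
    show (1 - ∑' j, q' j) + ∑' j, q' j = 1
    exact tsub_add_cancel_of_le tsum_q'
  rw [← h]
  exact ENNReal.summable.hasSum

/-- law of the index, as a probability mass function -/
noncomputable def kap : PMF ℕ := ⟨qq, hasSum_qq⟩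

/-- law of the index, as a measure -/
noncomputable def km : Measure ℕ := kap.toMeasure

instance : IsProbabilityMeasure km := by unfold km; infer_instance

theorem km_singleton (j : ℕ) : km {j} = qq j := by
  unfold km
  rw [PMF.toMeasure_apply_singleton _ _ (measurableSet_singleton j)]
  rfl

theorem km_lintegral (f : ℕ → ℝ≥0∞) : ∫⁻ j, f j ∂km = ∑' j, f j * qq j := by
  rw [lintegral_countable']
  simp only [km_singleton]

theorem km_hs : ∫⁻ j, (hs j : ℝ≥0∞) ∂km = 2 := by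
  rw [km_lintegral, tsum_eq_zero_add' ENNReal.summable]
  have h0 : (hs 0 : ℝ≥0∞) = 0 := by simp [hs]
  rw [h0, zero_mul, zero_add]
  have : ∀ j, (hs (j + 1) : ℝ≥0∞) * qq (j + 1) = (2⁻¹ : ℝ≥0∞) ^ j := by
    intro j
    show (hs (j + 1) : ℝ≥0∞) * ((2⁻¹ : ℝ≥0∞) ^ j / (hs (j + 1) : ℝ≥0∞)) = _
    rw [mul_comm, ENNReal.div_mul_cancel (hs_ne j) (by simp)]
  simp only [this]
  exact tsum_geo

theorem km_tail (k : ℕ) (hk : 1 ≤ k) : km {j | k < j} ≤ (hs (k + 1) : ℝ≥0∞)⁻¹ := by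
  have h1 : km {j | k < j} = ∫⁻ j, (if k < j then 1 else 0) ∂km := by
    have : (fun j : ℕ => (if k < j then (1:ℝ≥0∞) else 0)) = Set.indicator {j | k < j} 1 := by
      ext j
      simp [Set.indicator]
    rw [this, lintegral_indicator_one MeasurableSet.of_discrete]
  rw [h1, km_lintegral, tsum_eq_zero_add' ENNReal.summable]
  simp only [not_lt_zero, if_false, zero_mul, zero_add]
  have h2 : ∀ j, (if k < j + 1 then (1:ℝ≥0∞) else 0) * qq (j + 1) ≤
      (if k ≤ j then (2⁻¹ : ℝ≥0∞) ^ j else 0) * (hs (k + 1) : ℝ≥0∞)⁻¹ := by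
    intro j
    by_cases hj : k ≤ j
    · rw [if_pos (by omega), if_pos hj, one_mul]
      show (2⁻¹ : ℝ≥0∞) ^ j / (hs (j + 1) : ℝ≥0∞) ≤ _
      rw [ENNReal.div_eq_inv_mul, mul_comm]
      gcongr
      exact_mod_cast hs_mono (by omega)
    · rw [if_neg (by omega), zero_mul]
      exact zero_le
  refine (ENNReal.tsum_le_tsum h2).trans ?_
  rw [ENNReal.tsum_mul_right]
  refine mul_le_of_le_one_left zero_le ?_
  have h3 : ∑' j, (if k ≤ j then (2⁻¹ : ℝ≥0∞) ^ j else 0) = (2⁻¹ : ℝ≥0∞) ^ k * 2 := by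
    have h4 := Summable.sum_add_tsum_nat_add' (f := fun j => if k ≤ j then (2⁻¹ : ℝ≥0∞) ^ j else 0)
      (k := k) ENNReal.summable
    rw [← h4]
    have h5 : ∑ i ∈ Finset.range k, (if k ≤ i then (2⁻¹ : ℝ≥0∞) ^ i else 0) = 0 := by
      refine Finset.sum_eq_zero fun i hi => ?_
      rw [if_neg (by have := Finset.mem_range.1 hi; omega)]
    have h6 : ∀ i : ℕ, (if k ≤ i + k then (2⁻¹ : ℝ≥0∞) ^ (i + k) else 0) =
        (2⁻¹ : ℝ≥0∞) ^ i * (2⁻¹ : ℝ≥0∞) ^ k := by
      intro i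
      rw [if_pos (Nat.le_add_left _ _), pow_add]
    simp only [h5, h6]
    rw [zero_add, ENNReal.tsum_mul_right, tsum_geo, mul_comm]
  rw [h3]
  calc (2⁻¹ : ℝ≥0∞) ^ k * 2 ≤ (2⁻¹ : ℝ≥0∞) ^ 1 * 2 := by
        gcongr 1
        exact pow_le_pow_right_of_le_one' (by norm_num) hk
    _ = 1 := by rw [pow_one]; exact ENNReal.inv_mul_cancel (by norm_num) (by norm_num)

/-- truncated height -/
noncomputable def hk (k j : ℕ) : ℝ := if j ≤ k then (hs j : ℝ) else 0

theorem hk_nonneg (k j : ℕ) : 0 ≤ hk k j := by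
  unfold hk
  split_ifs
  · positivity
  · exact le_rfl

theorem hk_le (k j : ℕ) : hk k j ≤ hs k := by
  unfold hk
  split_ifs with h
  · exact_mod_cast hs_mono h
  · positivity

theorem hk_sum (k j : ℕ) : hk k j =
    ∑ i ∈ Finset.range k, (hs (i + 1) : ℝ) * Set.indicator {i + 1} (fun _ => (1:ℝ)) j := by
  unfold hk
  rcases Nat.eq_zero_or_pos j with rfl | hj
  · simp [hs]
  · obtain ⟨i, rfl⟩ : ∃ i, j = i + 1 := ⟨j - 1, by omega⟩
    by_cases h : i + 1 ≤ k
    · rw [if_pos h, Finset.sum_eq_single i]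
      · simp
      · intro b _ hb
        rw [Set.indicator_of_notMem, mul_zero]
        simp only [Set.mem_singleton_iff]
        omega
      · intro hi
        exact absurd (Finset.mem_range.2 (by omega)) hi
    · rw [if_neg h]
      symm
      refine Finset.sum_eq_zero fun b hb => ?_
      have := Finset.mem_range.1 hb
      rw [Set.indicator_of_notMem, mul_zero]
      simp only [Set.mem_singleton_iff]
      omega

theorem km_real (i : ℕ) : (hs (i + 1) : ℝ) * km.real {i + 1} = (1 / 2) ^ i := by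
  rw [measureReal_def, km_singleton]
  show (hs (i + 1) : ℝ) * ((2⁻¹ : ℝ≥0∞) ^ i / (hs (i + 1) : ℝ≥0∞)).toReal = _
  rw [ENNReal.toReal_div, ENNReal.toReal_pow, ENNReal.toReal_inv]
  have : (hs (i + 1) : ℝ) ≠ 0 := by
    have := two_le_hs i
    exact_mod_cast (by omega : hs (i + 1) ≠ 0)
  simp only [ENNReal.toReal_ofNat, ENNReal.toReal_natCast]
  field_simp

theorem integral_hk (k : ℕ) : ∫ j, hk k j ∂km = 2 - 2 * (1 / 2) ^ k := by
  have h1 : (fun j => hk k j) = fun j =>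
      ∑ i ∈ Finset.range k, (hs (i + 1) : ℝ) * Set.indicator {i + 1} (fun _ => (1:ℝ)) j := by
    funext j
    exact hk_sum k j
  rw [h1, integral_finsetSum]
  · have h2 : ∀ i, ∫ j, (hs (i + 1) : ℝ) * Set.indicator {i + 1} (fun _ => (1:ℝ)) j ∂km =
        (1 / 2) ^ i := by
      intro i
      rw [integral_const_mul, integral_indicator_const _ (measurableSet_singleton _), smul_eq_mul,
        mul_one, km_real]
    simp only [h2]
    induction k with
    | zero => simp
    | succ k ih =>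
      have ih' := ih (by funext j; exact hk_sum k j)
      rw [Finset.sum_range_succ, ih', pow_succ]
      ring
  · intro i _
    exact ((integrable_const (1:ℝ)).indicator (measurableSet_singleton _)).const_mul _

end Pool.Agent.K1H99.CL
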