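import Pool.Agent.Helper878.ERW.PartE1

set_option autoImplicit false
open MeasureTheory ProbabilityTheory Filter Topology
open scoped ENNReal NNReal

namespace Pool.Agent.K1H99.CL

open Pool.H878.ERW

/-- the compensated walk along the path `p` -/
noncomputable def mart (w : ℤ → ℕ → ℝ) (p : ℕ → ℤ) (k : ℕ) : ℝ :=
  (p k : ℝ) - ∑ j ∈ Finset.range k, (2 * w (p j) (visits p j) - 1)

theorem visits_congr {p q : ℕ → ℤ} {n : ℕ} (h : ∀ j ≤ n, p j = q j) :
    visits p n = visits q n := e1visits_congr h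

theorem mart_congr (w : ℤ → ℕ → ℝ) {p q : ℕ → ℤ} {n : ℕ} (h : ∀ j ≤ n, p j = q j) :
    mart w p n = mart w q n := by
  unfold mart
  rw [h n le_rfl]
  congr 1
  refine Finset.sum_congr rfl fun j hj => ?_
  have hj' := Finset.mem_range.1 hj
  rw [h j hj'.le, visits_congr (fun i hi => h i (by omega))]

theorem stepProb_congr (w : ℤ → ℕ → ℝ) {p q : ℕ → ℤ} {j : ℕ} (h : ∀ i ≤ j + 1, p i = q i) :
    stepProb w p j = stepProb w q j := by
  unfold stepProb
  rw [h j (by omega), h (j + 1) le_rfl, visits_congr (fun i hi => h i (by omega))]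

theorem meas_eval (x : ℤ) (i : ℕ) : Measurable (fun w : ℤ → ℕ → ℝ => w x i) :=
  (measurable_pi_apply i).comp (measurable_pi_apply x)

theorem meas_mart (p : ℕ → ℤ) (k : ℕ) : Measurable (fun w : ℤ → ℕ → ℝ => mart w p k) := by
  unfold mart
  refine measurable_const.sub (Finset.measurable_fun_sum _ fun j _ => ?_)
  exact ((meas_eval _ _).const_mul 2).sub_const 1

theorem meas_stepProb (p : ℕ → ℤ) (j : ℕ) : Measurable (fun w : ℤ → ℕ → ℝ => stepProb w p j) := by
  unfold stepProb
  by_cases h1 : p (j + 1) = p j + 1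
  · simp only [if_pos h1]; exact meas_eval _ _
  · by_cases h2 : p (j + 1) = p j - 1
    · simp only [if_neg h1, if_pos h2]; exact measurable_const.sub (meas_eval _ _)
    · simp only [if_neg h1, if_neg h2]; exact measurable_const

/-- the weight of a path prefix -/
noncomputable def G (w : ℤ → ℕ → ℝ) (p : ℕ → ℤ) (k : ℕ) : ℝ≥0∞ :=
  ∏ j ∈ Finset.range k, ENNReal.ofReal (stepProb w p j)

theorem G_congr (w : ℤ → ℕ → ℝ) {p q : ℕ → ℤ} {n : ℕ} (h : ∀ j ≤ n, p j = q j) :
    G w p n = G w q n := by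
  unfold G
  refine Finset.prod_congr rfl fun j hj => ?_
  have hj' := Finset.mem_range.1 hj
  rw [stepProb_congr w (fun i hi => h i (by omega))]

theorem meas_G (p : ℕ → ℤ) (k : ℕ) : Measurable (fun w : ℤ → ℕ → ℝ => G w p k) := by
  unfold G
  exact Finset.measurable_prod _ fun j _ => (meas_stepProb p j).ennreal_ofReal

theorem G_succ (w : ℤ → ℕ → ℝ) (p : ℕ → ℤ) (k : ℕ) :
    G w p (k + 1) = G w p k * ENNReal.ofReal (stepProb w p k) := by
  unfold G
  rw [Finset.prod_range_succ]

variable {Ω : Type} [MeasurableSpace Ω] {μ : Measure Ω} {env : Ω → ℤ → ℕ → ℝ} {X : ℕ → Ω → ℤ}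

theorem law_eq (h : IsERW μ env X) (n : ℕ) (p : ℕ → ℤ) (hp : p 0 = 0)
    {A : Set (ℤ → ℕ → ℝ)} (hA : MeasurableSet A) :
    μ {w | env w ∈ A ∧ ∀ j, j ≤ n → X j w = p j} =
      ∫⁻ w in {w | env w ∈ A}, G (env w) p n ∂μ := by
  rw [h.law n p A hA, if_pos hp]
  rfl

/-- the algebra of one step -/
theorem one_step (θ a n lam : ℝ) (hθ0 : 0 ≤ θ) (hθ1 : θ ≤ 1) (hlam : 0 < lam) (hn : 0 ≤ n) :
    ENNReal.ofReal θ * ENNReal.ofReal (((a + 1 - (2 * θ - 1)) ^ 2 + n) / lam ^ 2) +
    ENNReal.ofReal (1 - θ) * ENNReal.ofReal (((a - 1 - (2 * θ - 1)) ^ 2 + n) / lam ^ 2) ≤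
    ENNReal.ofReal ((a ^ 2 + (n + 1)) / lam ^ 2) := by
  rw [← ENNReal.ofReal_mul hθ0, ← ENNReal.ofReal_mul (by linarith), ← ENNReal.ofReal_add
    (by positivity) (mul_nonneg (by linarith) (by positivity))]
  apply ENNReal.ofReal_le_ofReal
  rw [← mul_div_assoc, ← mul_div_assoc, ← add_div]
  apply div_le_div_of_nonneg_right _ (by positivity)
  nlinarith [sq_nonneg (2 * θ - 1)]

theorem max_aux [IsProbabilityMeasure μ] (henv : Measurable env) (hX : ∀ n, Measurable (X n))
    (h01 : ∀ ω x i, env ω x i ∈ Set.Icc (0:ℝ) 1) (h : IsERW μ env X) (lam : ℝ) (hlam : 0 < lam)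
    (n : ℕ) : ∀ (k : ℕ) (p : ℕ → ℤ) (A : Set (ℤ → ℕ → ℝ)), p 0 = 0 → MeasurableSet A →
    μ {ω | env ω ∈ A ∧ (∀ j, j ≤ k → X j ω = p j) ∧
      ∃ m, k ≤ m ∧ m ≤ k + n ∧ lam ≤ |mart (env ω) (fun j => X j ω) m|} ≤
    ∫⁻ ω in {ω | env ω ∈ A}, G (env ω) p k *
      ENNReal.ofReal (((mart (env ω) p k) ^ 2 + n) / lam ^ 2) ∂μ := by
  induction n with
  | zero =>
    intro k p A hp hA
    have hA' : MeasurableSet (A ∩ {w | lam ≤ |mart w p k|}) :=
      hA.inter (measurableSet_le measurable_const (continuous_abs.measurable.comp (meas_mart p k)))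
    have h1 : {ω | env ω ∈ A ∧ (∀ j, j ≤ k → X j ω = p j) ∧
        ∃ m, k ≤ m ∧ m ≤ k + 0 ∧ lam ≤ |mart (env ω) (fun j => X j ω) m|} ⊆
        {ω | env ω ∈ A ∩ {w | lam ≤ |mart w p k|} ∧ ∀ j, j ≤ k → X j ω = p j} := by
      rintro ω ⟨h1, h2, m, hm1, hm2, hm3⟩
      have : m = k := by omega
      subst this
      rw [mart_congr (env ω) (q := p) (fun j hj => h2 j hj)] at hm3
      exact ⟨⟨h1, hm3⟩, h2⟩
    refine (measure_mono h1).trans ?_
    rw [law_eq h k p hp hA']
    have hsub : {ω | env ω ∈ A ∩ {w | lam ≤ |mart w p k|}} ⊆ {ω | env ω ∈ A} := fun ω hω => hω.1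
    refine le_trans ?_ (lintegral_mono_set hsub)
    refine setLIntegral_mono' (henv hA') ?_
    intro ω hω
    have h2 : lam ≤ |mart (env ω) p k| := hω.2
    calc G (env ω) p k = G (env ω) p k * 1 := (mul_one _).symm
      _ ≤ _ := by
        gcongr
        rw [ENNReal.one_le_ofReal, one_le_div (by positivity)]
        have : lam ^ 2 ≤ |mart (env ω) p k| ^ 2 := by gcongr
        rw [sq_abs] at this
        simpa using this
  | succ n ih =>
    intro k p A hp hA
    set B : Set (ℤ → ℕ → ℝ) := {w | lam ≤ |mart w p k|} with hB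
    have hBm : MeasurableSet B :=
      measurableSet_le measurable_const (continuous_abs.measurable.comp (meas_mart p k))
    let q : ℕ → ℤ := Function.update p (k + 1) (p k + 1)
    let r : ℕ → ℤ := Function.update p (k + 1) (p k - 1)
    have hq : ∀ m, m ≤ k → q m = p m := fun m hm => Function.update_of_ne (by omega) _ _
    have hr : ∀ m, m ≤ k → r m = p m := fun m hm => Function.update_of_ne (by omega) _ _
    have hq1 : q (k + 1) = p k + 1 := Function.update_self _ _ _
    have hr1 : r (k + 1) = p k - 1 := Function.update_self _ _ _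
    have hq0 : q 0 = 0 := by rw [hq 0 (Nat.zero_le _), hp]
    have hr0 : r 0 = 0 := by rw [hr 0 (Nat.zero_le _), hp]
    -- steps different from ±1 have probability zero
    have hnull : μ {ω | (∀ j, j ≤ k → X j ω = p j) ∧ X (k + 1) ω ≠ p k + 1 ∧
        X (k + 1) ω ≠ p k - 1} = 0 := by
      have hsub : {ω | (∀ j, j ≤ k → X j ω = p j) ∧ X (k + 1) ω ≠ p k + 1 ∧
          X (k + 1) ω ≠ p k - 1} ⊆ ⋃ c : ℤ, {ω | (c ≠ p k + 1 ∧ c ≠ p k - 1) ∧
            ∀ j, j ≤ k + 1 → X j ω = Function.update p (k + 1) c j} := by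
        rintro ω ⟨h1, h2, h3⟩
        rw [Set.mem_iUnion]
        refine ⟨X (k + 1) ω, ⟨h2, h3⟩, fun j hj => ?_⟩
        rcases Nat.lt_or_ge k j with h4 | h4
        · have : j = k + 1 := by omega
          subst this
          rw [Function.update_self]
        · rw [Function.update_of_ne (by omega), h1 j h4]
      refine measure_mono_null hsub (measure_iUnion_null fun c => ?_)
      by_cases hc : c ≠ p k + 1 ∧ c ≠ p k - 1
      · have h5 := law_eq h (k + 1) (Function.update p (k + 1) c)
          (by rw [Function.update_of_ne (by omega), hp]) MeasurableSet.univ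
        have h6 : {ω | (c ≠ p k + 1 ∧ c ≠ p k - 1) ∧
            ∀ j, j ≤ k + 1 → X j ω = Function.update p (k + 1) c j} =
            {ω | env ω ∈ Set.univ ∧ ∀ j, j ≤ k + 1 → X j ω = Function.update p (k + 1) c j} := by
          ext ω
          simp only [Set.mem_ofPred_eq, Set.mem_univ, true_and]
          exact ⟨fun h => h.2, fun h => ⟨hc, h⟩⟩
        rw [h6, h5]
        have h7 : ∀ w, G w (Function.update p (k + 1) c) (k + 1) = 0 := by
          intro w
          rw [G_succ]
          have : stepProb w (Function.update p (k + 1) c) k = 0 := by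
            unfold stepProb
            rw [Function.update_self, Function.update_of_ne (by omega), if_neg hc.1, if_neg hc.2]
          rw [this]
          simp
        simp [h7]
      · have h6 : {ω | (c ≠ p k + 1 ∧ c ≠ p k - 1) ∧
            ∀ j, j ≤ k + 1 → X j ω = Function.update p (k + 1) c j} = ∅ := by
          ext ω
          simp only [Set.mem_ofPred_eq, Set.mem_empty_iff_false, iff_false]
          exact fun h => hc h.1
        rw [h6]
        simp
    -- splitting
    have hsub : {ω | env ω ∈ A ∧ (∀ j, j ≤ k → X j ω = p j) ∧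
        ∃ m, k ≤ m ∧ m ≤ k + (n + 1) ∧ lam ≤ |mart (env ω) (fun j => X j ω) m|} ⊆
        {ω | env ω ∈ A ∩ B ∧ ∀ j, j ≤ k → X j ω = p j} ∪
        ({ω | env ω ∈ A \ B ∧ (∀ j, j ≤ k + 1 → X j ω = q j) ∧
          ∃ m, k + 1 ≤ m ∧ m ≤ k + 1 + n ∧ lam ≤ |mart (env ω) (fun j => X j ω) m|} ∪
        ({ω | env ω ∈ A \ B ∧ (∀ j, j ≤ k + 1 → X j ω = r j) ∧
          ∃ m, k + 1 ≤ m ∧ m ≤ k + 1 + n ∧ lam ≤ |mart (env ω) (fun j => X j ω) m|} ∪
        {ω | (∀ j, j ≤ k → X j ω = p j) ∧ X (k + 1) ω ≠ p k + 1 ∧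
          X (k + 1) ω ≠ p k - 1})) := by
      rintro ω ⟨h1, h2, m, hm1, hm2, hm3⟩
      by_cases hb : env ω ∈ B
      · exact Or.inl ⟨⟨h1, hb⟩, h2⟩
      right
      have hmk : m ≠ k := by
        rintro rfl
        rw [mart_congr (env ω) (q := p) (fun j hj => h2 j hj)] at hm3
        exact hb hm3
      by_cases hu : X (k + 1) ω = p k + 1
      · left
        refine ⟨⟨h1, hb⟩, fun j hj => ?_, m, by omega, by omega, hm3⟩
        rcases Nat.lt_or_ge k j with h4 | h4
        · have : j = k + 1 := by omega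
          subst this
          rw [hu, hq1]
        · rw [h2 j h4, hq j h4]
      right
      by_cases hd : X (k + 1) ω = p k - 1
      · left
        refine ⟨⟨h1, hb⟩, fun j hj => ?_, m, by omega, by omega, hm3⟩
        rcases Nat.lt_or_ge k j with h4 | h4
        · have : j = k + 1 := by omega
          subst this
          rw [hd, hr1]
        · rw [h2 j h4, hr j h4]
      right
      exact ⟨h2, hu, hd⟩
    refine (measure_mono hsub).trans ?_
    refine (measure_union_le _ _).trans ?_
    have e1 : μ {ω | env ω ∈ A ∩ B ∧ ∀ j, j ≤ k → X j ω = p j} ≤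
        ∫⁻ ω in {ω | env ω ∈ A ∩ B}, G (env ω) p k *
          ENNReal.ofReal (((mart (env ω) p k) ^ 2 + ((n + 1 : ℕ) : ℝ)) / lam ^ 2) ∂μ := by
      rw [law_eq h k p hp (hA.inter hBm)]
      refine setLIntegral_mono' (henv (hA.inter hBm)) ?_
      intro ω hω
      have h2 : lam ≤ |mart (env ω) p k| := hω.2
      calc G (env ω) p k = G (env ω) p k * 1 := (mul_one _).symm
        _ ≤ _ := by
          gcongr
          rw [ENNReal.one_le_ofReal, one_le_div (by positivity)]
          have : lam ^ 2 ≤ |mart (env ω) p k| ^ 2 := by gcongr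
          rw [sq_abs] at this
          have h3 : (0:ℝ) ≤ ((n + 1 : ℕ) : ℝ) := by positivity
          linarith
    have hDm : MeasurableSet (A \ B) := hA.diff hBm
    have e2 := ih (k + 1) q (A \ B) hq0 hDm
    have e3 := ih (k + 1) r (A \ B) hr0 hDm
    have e4 : μ ({ω | env ω ∈ A \ B ∧ (∀ j, j ≤ k + 1 → X j ω = q j) ∧
          ∃ m, k + 1 ≤ m ∧ m ≤ k + 1 + n ∧ lam ≤ |mart (env ω) (fun j => X j ω) m|} ∪
        ({ω | env ω ∈ A \ B ∧ (∀ j, j ≤ k + 1 → X j ω = r j) ∧
          ∃ m, k + 1 ≤ m ∧ m ≤ k + 1 + n ∧ lam ≤ |mart (env ω) (fun j => X j ω) m|} ∪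
        {ω | (∀ j, j ≤ k → X j ω = p j) ∧ X (k + 1) ω ≠ p k + 1 ∧
          X (k + 1) ω ≠ p k - 1})) ≤
        ∫⁻ ω in {ω | env ω ∈ A \ B}, G (env ω) p k *
          ENNReal.ofReal (((mart (env ω) p k) ^ 2 + ((n + 1 : ℕ) : ℝ)) / lam ^ 2) ∂μ := by
      refine (measure_union_le _ _).trans ?_
      refine (add_le_add e2 ((measure_union_le _ _).trans (add_le_add e3 hnull.le))).trans ?_
      rw [add_zero, ← lintegral_add_left]
      · refine setLIntegral_mono' (henv hDm) ?_
        intro ω _
        set θ := env ω (p k) (visits p k) with hθ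
        have hθ01 := h01 ω (p k) (visits p k)
        have hvq : visits q k = visits p k := visits_congr (fun j hj => hq j hj)
        have hvr : visits r k = visits p k := visits_congr (fun j hj => hr j hj)
        have s1 : stepProb (env ω) q k = θ := by
          unfold stepProb
          rw [hq1, hq k le_rfl, if_pos rfl, hvq]
        have s2 : stepProb (env ω) r k = 1 - θ := by
          unfold stepProb
          rw [hr1, hr k le_rfl, if_neg (by omega), if_pos rfl, hvr]
        have g1 : G (env ω) q (k + 1) = G (env ω) p k * ENNReal.ofReal θ := by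
          rw [G_succ, s1, G_congr (env ω) (q := p) (fun j hj => hq j hj)]
        have g2 : G (env ω) r (k + 1) = G (env ω) p k * ENNReal.ofReal (1 - θ) := by
          rw [G_succ, s2, G_congr (env ω) (q := p) (fun j hj => hr j hj)]
        have m0 : mart (env ω) p k = (p k : ℝ) - ∑ j ∈ Finset.range k,
          (2 * env ω (p j) (visits p j) - 1) := rfl
        have m1 : mart (env ω) q (k + 1) = mart (env ω) p k + 1 - (2 * θ - 1) := by
          have e : ∑ j ∈ Finset.range k, (2 * env ω (q j) (visits q j) - 1) =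
              ∑ j ∈ Finset.range k, (2 * env ω (p j) (visits p j) - 1) := by
            refine Finset.sum_congr rfl fun j hj => ?_
            have hj' := Finset.mem_range.1 hj
            rw [hq j hj'.le, visits_congr (q := p) (fun i hi => hq i (by omega))]
          unfold mart
          rw [Finset.sum_range_succ, e, hq1, hq k le_rfl, hvq]
          push_cast
          ring
        have m2 : mart (env ω) r (k + 1) = mart (env ω) p k - 1 - (2 * θ - 1) := by
          have e : ∑ j ∈ Finset.range k, (2 * env ω (r j) (visits r j) - 1) =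
              ∑ j ∈ Finset.range k, (2 * env ω (p j) (visits p j) - 1) := by
            refine Finset.sum_congr rfl fun j hj => ?_
            have hj' := Finset.mem_range.1 hj
            rw [hr j hj'.le, visits_congr (q := p) (fun i hi => hr i (by omega))]
          unfold mart
          rw [Finset.sum_range_succ, e, hr1, hr k le_rfl, hvr]
          push_cast
          ring
        rw [g1, g2, m1, m2, mul_assoc, mul_assoc, ← mul_add]
        gcongr
        have := one_step θ (mart (env ω) p k) n lam hθ01.1 hθ01.2 hlam (by positivity)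
        refine this.trans (le_of_eq ?_)
        push_cast
        rfl
      · refine Measurable.mul ((meas_G q (k + 1)).comp henv) ?_
        refine Measurable.ennreal_ofReal ?_
        exact ((((meas_mart q (k + 1)).comp henv).pow_const 2).add_const _).div_const _
    refine (add_le_add e1 e4).trans ?_
    have hdisj : Disjoint {ω | env ω ∈ A ∩ B} {ω | env ω ∈ A \ B} := by
      rw [Set.disjoint_left]
      rintro ω ⟨_, h2⟩ ⟨_, h3⟩
      exact h3 h2
    have hDm' : MeasurableSet {ω | env ω ∈ A \ B} := henv hDm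
    rw [← lintegral_union hDm' hdisj]
    refine le_of_eq ?_
    congr 2
    ext ω
    simp only [Set.mem_union, Set.mem_ofPred_eq, Set.mem_inter_iff, Set.mem_diff]
    tauto

/-- the maximal inequality for the compensated walk -/
theorem max_ineq [IsProbabilityMeasure μ] (henv : Measurable env) (hX : ∀ n, Measurable (X n))
    (h01 : ∀ ω x i, env ω x i ∈ Set.Icc (0:ℝ) 1) (h : IsERW μ env X) (lam : ℝ) (hlam : 0 < lam)
    (n : ℕ) :
    μ {ω | X 0 ω = 0 ∧ ∃ m, m ≤ n ∧ lam ≤ |mart (env ω) (fun j => X j ω) m|} ≤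
      ENNReal.ofReal (n / lam ^ 2) := by
  have h1 := max_aux henv hX h01 h lam hlam n 0 (fun _ => 0) Set.univ rfl MeasurableSet.univ
  have h2 : {ω | X 0 ω = 0 ∧ ∃ m, m ≤ n ∧ lam ≤ |mart (env ω) (fun j => X j ω) m|} ⊆
      {ω | env ω ∈ Set.univ ∧ (∀ j, j ≤ 0 → X j ω = (fun _ => (0:ℤ)) j) ∧
      ∃ m, 0 ≤ m ∧ m ≤ 0 + n ∧ lam ≤ |mart (env ω) (fun j => X j ω) m|} := by
    rintro ω ⟨h3, m, hm1, hm2⟩
    refine ⟨Set.mem_univ _, fun j hj => ?_, m, Nat.zero_le _, by omega, hm2⟩
    have : j = 0 := by omega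
    subst this
    exact h3
  refine (measure_mono h2).trans (h1.trans ?_)
  have h4 : ∀ ω, G (env ω) (fun _ => 0) 0 * ENNReal.ofReal
      (((mart (env ω) (fun _ => 0) 0) ^ 2 + (n : ℝ)) / lam ^ 2) =
      ENNReal.ofReal (n / lam ^ 2) := by
    intro ω
    simp [G, mart]
  simp only [h4, Set.mem_univ, Set.ofPred_true, Measure.restrict_univ, lintegral_const,
    measure_univ, mul_one, le_refl]

end Pool.Agent.K1H99.CL
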