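import Pool.Agent.K1H99.CL.Det
import Pool.Agent.K1H99.CL.Law

set_option autoImplicit false
open MeasureTheory ProbabilityTheory Filter Topology
open scoped ENNReal NNReal

namespace Pool.Agent.K1H99.CL

open Pool.H878.ERW Pool.Agent.R987.Bern

/-- the law of the indices at all sites -/
noncomputable def PJ : Measure (ℤ → ℕ) := iid ℤ km

instance : IsProbabilityMeasure PJ := by unfold PJ; infer_instance

/-- the cookie environment: `hs (J z)` cookies of strength `3/4` at the site `z` -/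
noncomputable def ev (J : ℤ → ℕ) (z : ℤ) (i : ℕ) : ℝ := if i ≤ hs (J z) then 3 / 4 else 1 / 2

theorem ev_low (J : ℤ → ℕ) (z : ℤ) (i : ℕ) : 1 / 2 ≤ ev J z i := by
  unfold ev
  split_ifs <;> norm_num

theorem ev_high (J : ℤ → ℕ) (z : ℤ) (i : ℕ) : ev J z i ≤ 3 / 4 := by
  unfold ev
  split_ifs <;> norm_num

theorem ev_sum_le (J : ℤ → ℕ) (z : ℤ) (n : ℕ) :
    ∑ i ∈ Finset.Icc 1 n, (2 * ev J z i - 1) ≤ (hs (J z) : ℝ) / 2 := by
  have h1 : ∀ i, 2 * ev J z i - 1 = if i ≤ hs (J z) then 1 / 2 else 0 := by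
    intro i
    unfold ev
    split_ifs <;> norm_num
  simp only [h1]
  rw [← Finset.sum_filter, Finset.sum_const, nsmul_eq_mul]
  have h2 : ((Finset.Icc 1 n).filter (fun i => i ≤ hs (J z))).card ≤ hs (J z) := by
    calc ((Finset.Icc 1 n).filter (fun i => i ≤ hs (J z))).card
        ≤ (Finset.Icc 1 (hs (J z))).card := by
          apply Finset.card_le_card
          intro i hi
          simp only [Finset.mem_filter, Finset.mem_Icc] at hi ⊢
          omega
      _ = hs (J z) := by simp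
  have h3 : (((Finset.Icc 1 n).filter (fun i => i ≤ hs (J z))).card : ℝ) ≤ hs (J z) := by
    exact_mod_cast h2
  linarith

theorem meas_ev : Measurable ev := by
  refine measurable_pi_iff.2 fun z => measurable_pi_iff.2 fun i => ?_
  have : (fun J : ℤ → ℕ => ev J z i) = (fun j : ℕ => if i ≤ hs j then (3 / 4 : ℝ) else 1 / 2) ∘
      (fun J : ℤ → ℕ => J z) := rfl
  rw [this]
  exact (measurable_of_countable _).comp (measurable_pi_apply z)

theorem mp_eval (z : ℤ) : MeasurePreserving (fun J : ℤ → ℕ => J z) PJ km := by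
  unfold PJ iid
  exact measurePreserving_eval_infinitePi (fun _ : ℤ => km) z

/-- the truncated height at a site -/
noncomputable def Y (k : ℕ) (z : ℤ) (J : ℤ → ℕ) : ℝ := hk k (J z)

theorem Y_meas (k : ℕ) (z : ℤ) : Measurable (Y k z) :=
  (measurable_of_countable (hk k)).comp (measurable_pi_apply z)

theorem Y_memLp (k : ℕ) (z : ℤ) : MemLp (Y k z) 2 PJ := by
  refine MemLp.of_bound (Y_meas k z).aestronglyMeasurable (hs k) (ae_of_all _ fun J => ?_)
  rw [Real.norm_eq_abs]
  unfold Y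
  rw [abs_of_nonneg (hk_nonneg _ _)]
  exact hk_le _ _

theorem Y_int (k : ℕ) (z : ℤ) : ∫ J, Y k z J ∂PJ = 2 - 2 * (1 / 2) ^ k := by
  rw [← integral_hk k, ← (mp_eval z).map_eq, integral_map (measurable_pi_apply z).aemeasurable
    ((measurable_of_countable _).aestronglyMeasurable)]
  rfl

theorem Y_indep (k : ℕ) : iIndepFun (fun z => Y k z) PJ := by
  unfold PJ iid
  exact iIndepFun_infinitePi (fun _ => measurable_of_countable (hk k))

theorem Y_var (k : ℕ) (z : ℤ) : Var[Y k z; PJ] ≤ 2 * hs k := by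
  refine (variance_le_expectation_sq (Y_meas k z).aestronglyMeasurable).trans ?_
  have h1 : ∀ J, (Y k z ^ 2) J ≤ hs k * Y k z J := by
    intro J
    have h2 := hk_nonneg k (J z)
    have h3 := hk_le k (J z)
    show (hk k (J z)) ^ 2 ≤ hs k * hk k (J z)
    nlinarith
  have hi : Integrable (Y k z) PJ := (Y_memLp k z).integrable (by norm_num)
  have h4 : ∫ J, (Y k z ^ 2) J ∂PJ ≤ ∫ J, hs k * Y k z J ∂PJ := by
    refine integral_mono_of_nonneg (ae_of_all _ fun J => ?_) (hi.const_mul _) (ae_of_all _ h1)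
    show 0 ≤ (hk k (J z)) ^ 2
    positivity
  refine h4.trans ?_
  rw [integral_const_mul, Y_int]
  have h5 : (0:ℝ) ≤ (1 / 2) ^ k := by positivity
  have h6 : (0:ℝ) ≤ hs k := by positivity
  nlinarith

theorem bad_env (k a n : ℕ) (hk1 : 1 ≤ k) (ha : 0 < a) :
    PJ {J | ((2 ^ (k + 2) * a : ℕ) : ℝ) - a < drift (ev J) a (2 ^ (k + 2) * a) n} ≤
      ((2 ^ (k + 2) + 1) * a : ℕ) * (hs (k + 1) : ℝ≥0∞)⁻¹ +
        ENNReal.ofReal (2 ^ k * hs k / a) := by
  set r : ℕ := 2 ^ (k + 2) * a with hr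
  set I : Finset ℤ := Finset.Ico (-(a:ℤ)) r with hI
  have hcard : I.card = (2 ^ (k + 2) + 1) * a := by
    rw [hI, Int.card_Ico, hr]
    have : (((2 ^ (k + 2) * a : ℕ) : ℤ) - -(a:ℤ)) = (((2 ^ (k + 2) + 1) * a : ℕ) : ℤ) := by
      push_cast; ring
    rw [this, Int.toNat_natCast]
  have haR : (0:ℝ) < a := by exact_mod_cast ha
  have hrR : (r:ℝ) = 2 ^ (k + 2) * a := by rw [hr]; push_cast; ring
  have hcardR : (I.card : ℝ) = r + a := by rw [hcard, hrR]; push_cast; ring
  -- the sum of the truncated heights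
  set S : (ℤ → ℕ) → ℝ := ∑ z ∈ I, Y k z with hS
  have hSapp : ∀ J, S J = ∑ z ∈ I, hk k (J z) := by
    intro J
    rw [hS, Finset.sum_apply]
    rfl
  have hSint : ∫ J, S J ∂PJ = (r + a) * (2 - 2 * (1 / 2) ^ k) := by
    have : (fun J => S J) = fun J => ∑ z ∈ I, Y k z J := by
      funext J
      rw [hS, Finset.sum_apply]
    rw [this, integral_finsetSum]
    · simp only [Y_int]
      rw [Finset.sum_const, nsmul_eq_mul, hcardR]
    · intro z _
      exact (Y_memLp k z).integrable (by norm_num)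
  have hSm : MemLp S 2 PJ := by
    rw [hS]
    exact memLp_finsetSum' _ fun z _ => Y_memLp k z
  have hvar : Var[S; PJ] ≤ (r + a) * (2 * hs k) := by
    rw [hS, IndepFun.variance_sum (fun z _ => Y_memLp k z)]
    · refine (Finset.sum_le_sum fun z _ => Y_var k z).trans ?_
      rw [Finset.sum_const, nsmul_eq_mul, hcardR]
    · intro i _ j _ hij
      exact (Y_indep k).indepFun hij
  have hsub : {J | (r : ℝ) - a < drift (ev J) a r n} ⊆
      (⋃ z ∈ I, {J : ℤ → ℕ | k < J z}) ∪ {J | 4 * (a:ℝ) ≤ |S J - ∫ J', S J' ∂PJ|} := by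
    intro J hJ
    by_cases h1 : ∃ z ∈ I, k < J z
    · obtain ⟨z, hz, h2⟩ := h1
      left
      exact Set.mem_biUnion hz h2
    · right
      push Not at h1
      have h2 : drift (ev J) a r n ≤ S J / 2 := by
        unfold drift
        rw [hSapp, Finset.sum_div]
        refine Finset.sum_le_sum fun z hz => ?_
        refine (ev_sum_le J z n).trans ?_
        unfold hk
        rw [if_pos (h1 z hz)]
      have h3 : (r : ℝ) - a < S J / 2 := lt_of_lt_of_le hJ h2
      show 4 * (a:ℝ) ≤ |S J - ∫ J', S J' ∂PJ|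
      rw [hSint]
      refine le_trans ?_ (le_abs_self _)
      have h4 : (1 / 2 : ℝ) ^ k * r = 4 * a := by
        rw [hrR, pow_add, one_div, inv_pow]
        field_simp
        norm_num
      have h5 : 0 ≤ (1 / 2 : ℝ) ^ k * a := by positivity
      nlinarith
  refine (measure_mono hsub).trans ((measure_union_le _ _).trans (add_le_add ?_ ?_))
  · refine (measure_biUnion_finset_le _ _).trans ?_
    have h1 : ∀ z ∈ I, PJ {J : ℤ → ℕ | k < J z} ≤ (hs (k + 1) : ℝ≥0∞)⁻¹ := by
      intro z _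
      have h2 : {J : ℤ → ℕ | k < J z} = (fun J : ℤ → ℕ => J z) ⁻¹' {j | k < j} := rfl
      rw [h2, (mp_eval z).measure_preimage (MeasurableSet.of_discrete).nullMeasurableSet]
      exact km_tail k hk1
    refine (Finset.sum_le_sum h1).trans ?_
    rw [Finset.sum_const, nsmul_eq_mul, hcard]
  · refine (meas_ge_le_variance_div_sq hSm (by positivity)).trans ?_
    apply ENNReal.ofReal_le_ofReal
    rw [div_le_div_iff₀ (by positivity) haR]
    have h1 : Var[S; PJ] * a ≤ (r + a) * (2 * hs k) * a := by gcongr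
    refine h1.trans ?_
    rw [hrR]
    have h2 : (0:ℝ) ≤ hs k := by positivity
    have h3 : (1:ℝ) ≤ 2 ^ k := one_le_pow₀ (by norm_num)
    have h4 : (2:ℝ) ^ (k + 2) = 4 * 2 ^ k := by rw [pow_add]; ring
    rw [h4]
    have h5 : (4 * 2 ^ k * (a:ℝ) + a) * (2 * hs k) * a = (8 * 2 ^ k + 2) * (hs k * a ^ 2) := by ring
    have h6 : (2:ℝ) ^ k * hs k * (4 * a) ^ 2 = (16 * 2 ^ k) * (hs k * a ^ 2) := by ring
    rw [h5, h6]
    gcongr
    linarith

end Pool.Agent.K1H99.CL
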